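import Mathlib
import Pool.Agent.Y210.EF.Spread
import Pool.Agent.H932R3.Collide

set_option autoImplicit false

/-! The degree of the minors in the coordinates of one point, and points in given sets. -/

namespace Pool.Agent.L7h88.VG

open Pool.Agent.H932R2 Pool.Agent.H932R3 Pool.Agent.Y210.EF

/-- the point with the number `i₀` is replaced by a variable point -/
noncomputable def sb {L : Type*} [Field L] {n : ℕ} (Y : Fin n → Fin 2 → L) (i₀ : Fin n) :
    MvPolynomial (Fin n × Fin 2) ℤ →+* MvPolynomial (Fin 2) L :=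
  MvPolynomial.eval₂Hom (Int.castRingHom (MvPolynomial (Fin 2) L))
    (fun ij => if ij.1 = i₀ then MvPolynomial.X ij.2 else MvPolynomial.C (Y ij.1 ij.2))

theorem eval_sb {L : Type*} [Field L] {n : ℕ} (Y : Fin n → Fin 2 → L) (i₀ : Fin n) (z : Fin 2 → L)
    (F : MvPolynomial (Fin n × Fin 2) ℤ) :
    MvPolynomial.eval z (sb Y i₀ F) = ev (Function.update Y i₀ z) F := by
  have h : (MvPolynomial.eval z).comp (sb Y i₀) = ev (Function.update Y i₀ z) := by
    refine MvPolynomial.ringHom_ext (fun a => by simp [sb, ev]) (fun ij => ?_)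
    by_cases hij : ij.1 = i₀
    · simp [sb, ev, hij]
    · simp [sb, ev, hij]
  exact congrArg (fun φ : MvPolynomial (Fin n × Fin 2) ℤ →+* L => φ F) h

theorem deg_sb_ent {L : Type*} [Field L] {n : ℕ} {w : Fin n → ℕ} (Y : Fin n → Fin 2 → L)
    (i₀ : Fin n) (p : Cd w) (u : ℕ × ℕ) :
    (sb Y i₀ (ent p u)).totalDegree ≤ if p.1 = i₀ then u.1 + u.2 else 0 := by
  have h0 : sb Y i₀ (ent p u) =
      MvPolynomial.C (((u.1.choose p.2.1.1 * u.2.choose p.2.1.2 : ℕ) : L)) *
      ((if p.1 = i₀ then MvPolynomial.X 0 else MvPolynomial.C (Y p.1 0)) ^ (u.1 - p.2.1.1) *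
        (if p.1 = i₀ then MvPolynomial.X 1 else MvPolynomial.C (Y p.1 1)) ^ (u.2 - p.2.1.2)) := by
    simp [sb, ent]
  rw [h0]
  split_ifs with h
  · refine (MvPolynomial.totalDegree_mul _ _).trans ?_
    rw [MvPolynomial.totalDegree_C, zero_add]
    refine (MvPolynomial.totalDegree_mul _ _).trans ?_
    rw [MvPolynomial.totalDegree_X_pow, MvPolynomial.totalDegree_X_pow]
    omega
  · rw [← MvPolynomial.C_pow, ← MvPolynomial.C_pow, ← MvPolynomial.C_mul, ← MvPolynomial.C_mul,
      MvPolynomial.totalDegree_C]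

/-- the degree of a determinant from the degrees of the rows -/
theorem deg_det_rows {L : Type*} [Field L] {k : ℕ} (A : Matrix (Fin k) (Fin k) (MvPolynomial (Fin 2) L))
    (b : Fin k → ℕ) (h : ∀ i j, (A i j).totalDegree ≤ b i) : A.det.totalDegree ≤ ∑ i, b i := by
  rw [← Matrix.det_transpose, Matrix.det_apply]
  refine MvPolynomial.totalDegree_finsetSum_le fun s _ => ?_
  have h2 : (∏ i, A.transpose (s i) i).totalDegree ≤ ∑ i, b i := by
    refine (MvPolynomial.totalDegree_finsetProd _ _).trans ?_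
    exact Finset.sum_le_sum fun i _ => h i (s i)
  rcases Int.units_eq_one_or (Equiv.Perm.sign s) with hs | hs
  · rw [hs, one_smul]; exact h2
  · rw [hs, Units.neg_smul, one_smul, MvPolynomial.totalDegree_neg]; exact h2

/-- one degree -/
theorem one_degree' {K : Type*} [Field K] {n : ℕ} {w : Fin n → ℕ} {P : Fin n → Fin 2 → K} {d : ℕ}
    (h : ED K w P d) :
    ∃ F : MvPolynomial (Fin n × Fin 2) ℤ, F ≠ 0 ∧
      (∀ (L : Type) [Field L] (Q : Fin n → Fin 2 → L), ev Q F ≠ 0 →
        RkI (vIdeal 1 w (fun a => Q a 0) (fun a => Polynomial.C (Q a 1))) (↑(Tfin d) : Set (ℕ × ℕ))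
          (min ((d + 2).choose 2) (cnd w))) ∧
      ∀ (L : Type) [Field L] (Q : Fin n → Fin 2 → L) (i₀ : Fin n),
        (sb Q i₀ F).totalDegree ≤ (w i₀ + 1).choose 2 * d := by
  classical
  have hr : (Am w (Tfin d) P).rank = min ((d + 2).choose 2) (cnd w) := rank_Am h
  have key : ∀ k : ℕ, (Am w (Tfin d) P).rank = k →
      ∃ (f : Fin k → Cd w) (g : Fin k → Fin (Tfin d).card),
        ((Am w (Tfin d) P).submatrix f g).det ≠ 0 := by
    rintro _ rfl
    exact exists_minor _
  obtain ⟨f, g, hfg⟩ := key _ hr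
  have hb : ∀ j, (enumM (Tfin d) (g j)).1 + (enumM (Tfin d) (g j)).2 ≤ d := fun j =>
    mem_T (enumM_mem _ _)
  have hev : ev P (Matrix.of fun i j => ent (f i) (enumM (Tfin d) (g j))).det =
      ((Am w (Tfin d) P).submatrix f g).det := by
    rw [RingHom.map_det]
    rfl
  have hfi : Function.Injective f := by
    intro i j hij
    by_contra hne
    apply hfg
    refine Matrix.det_zero_of_row_eq hne ?_
    funext k
    simp only [Matrix.submatrix_apply, hij]
  refine ⟨(Matrix.of fun i j => ent (f i) (enumM (Tfin d) (g j))).det, ?_, ?_, ?_⟩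
  · intro h0
    apply hfg
    rw [← hev, h0, map_zero]
  · intro L _ Q hQ
    exact rk_of_minor f g hQ
  · intro L _ Q i₀
    rw [RingHom.map_det]
    refine (deg_det_rows _ (fun i => if (f i).1 = i₀ then d else 0) fun i j => ?_).trans ?_
    · refine (deg_sb_ent Q i₀ (f i) (enumM (Tfin d) (g j))).trans ?_
      split_ifs
      · exact hb j
      · exact le_rfl
    · rw [← Finset.sum_filter, Finset.sum_const, smul_eq_mul]
      refine Nat.mul_le_mul_right _ ?_
      rw [← one_mul ((w i₀ + 1).choose 2), ← card_EE_eq' 1 (w i₀), ← Fintype.card_coe (EE 1 (w i₀)),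
        ← Fintype.card_coe (Finset.univ.filter fun i => (f i).1 = i₀)]
      have hmem : ∀ x : (Finset.univ.filter fun i => (f i).1 = i₀ : Finset _), (f x.1).1 = i₀ :=
        fun x => (Finset.mem_filter.1 x.2).2
      refine Fintype.card_le_of_injective (fun x => (hmem x) ▸ (f x.1).2) ?_
      intro x y hxy
      apply Subtype.ext
      apply hfi
      have h1 : f x.1 = ⟨i₀, (hmem x) ▸ (f x.1).2⟩ := by
        obtain ⟨x, hx⟩ := x
        have hx' := (Finset.mem_filter.1 hx).2
        subst hx'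
        rfl
      have h2 : f y.1 = ⟨i₀, (hmem y) ▸ (f y.1).2⟩ := by
        obtain ⟨y, hy⟩ := y
        have hy' := (Finset.mem_filter.1 hy).2
        subst hy'
        rfl
      rw [h1, h2]
      exact congrArg (Sigma.mk i₀) hxy

/-- **all degrees but at most one** -/
theorem spread_all' {K : Type*} [Field K] {n m : ℕ}
    (hc : 3 ≤ cnd (fun _ : Fin n => m)) (A : Set ℕ) (hA : A = ∅ ∨ ∃ d₀, A = {d₀})
    (h : ∀ d, d ∉ A → ∃ P : Fin n → Fin 2 → K, ED K (fun _ => m) P d) :
    ∃ F : MvPolynomial (Fin n × Fin 2) ℤ, F ≠ 0 ∧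
      (∀ (L : Type) [Field L] (Q : Fin n → Fin 2 → L), ev Q F ≠ 0 →
        ∀ d : ℕ, d ∉ A → ED L (fun _ => m) Q d) ∧
      ∀ (L : Type) [Field L] (Q : Fin n → Fin 2 → L) (i₀ : Fin n),
        (sb Q i₀ F).totalDegree ≤
          (m + 1).choose 2 * (2 * Nat.sqrt (2 * cnd (fun _ : Fin n => m))) := by
  obtain ⟨e, h1, h2, h3, h4⟩ := exists_crit hc
  obtain ⟨s, hs⟩ : ∃ s, s = Nat.sqrt (2 * cnd (fun _ : Fin n => m)) := ⟨_, rfl⟩
  rw [← hs] at h4 ⊢
  have hmono : ∀ a b : ℕ, a ≤ b → (a + 2).choose 2 ≤ (b + 2).choose 2 := fun a b hab =>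
    Nat.choose_le_choose 2 (by omega)
  have key : ∃ e' f' : ℕ, e' ∉ A ∧ f' ∉ A ∧ (e' + 2).choose 2 ≤ cnd (fun _ : Fin n => m) ∧
      cnd (fun _ : Fin n => m) ≤ (f' + 2).choose 2 ∧
      e' + f' ≤ 2 * s ∧ ∀ d, d ∉ A → d ≤ e' ∨ f' ≤ d := by
    by_cases he : e ∈ A
    · have hA1 : A = {e} := by
        rcases hA with hA | ⟨d₀, hA⟩
        · rw [hA] at he; exact absurd he (by simp)
        · rw [hA] at he ⊢
          rw [Set.mem_singleton_iff] at he
          rw [he]
      refine ⟨e - 1, e + 1, ?_, ?_, (hmono _ _ (by omega)).trans h2, h3, by omega, ?_⟩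
      · rw [hA1, Set.mem_singleton_iff]; omega
      · rw [hA1, Set.mem_singleton_iff]; omega
      · intro d hd
        rw [hA1, Set.mem_singleton_iff] at hd
        omega
    · by_cases he1 : e + 1 ∈ A
      · have hA1 : A = {e + 1} := by
          rcases hA with hA | ⟨d₀, hA⟩
          · rw [hA] at he1; exact absurd he1 (by simp)
          · rw [hA] at he1 ⊢
            rw [Set.mem_singleton_iff] at he1
            rw [he1]
        refine ⟨e, e + 2, he, ?_, h2, h3.trans (hmono _ _ (by omega)), by omega, ?_⟩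
        · rw [hA1, Set.mem_singleton_iff]; omega
        · intro d hd
          rw [hA1, Set.mem_singleton_iff] at hd
          omega
      · exact ⟨e, e + 1, he, he1, h2, h3, by omega, fun d _ => by omega⟩
  obtain ⟨e', f', k1, k2, k3, k4, k5, k6⟩ := key
  obtain ⟨P1, hP1⟩ := h e' k1
  obtain ⟨P2, hP2⟩ := h f' k2
  obtain ⟨F1, a1, a2, a3⟩ := one_degree' hP1
  obtain ⟨F2, b1, b2, b3⟩ := one_degree' hP2
  rw [min_eq_left k3] at a2
  rw [min_eq_right k4] at b2
  refine ⟨F1 * F2, mul_ne_zero a1 b1, fun L _ Q hQ d hd => ?_, fun L _ Q i₀ => ?_⟩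
  · rw [map_mul] at hQ
    exact ed_of_rk (a2 L Q (left_ne_zero_of_mul hQ)) (b2 L Q (right_ne_zero_of_mul hQ)) d (k6 d hd)
  · rw [map_mul]
    refine (MvPolynomial.totalDegree_mul _ _).trans ?_
    refine (Nat.add_le_add (a3 L Q i₀) (b3 L Q i₀)).trans ?_
    rw [← mul_add]
    exact Nat.mul_le_mul_left _ k5

/-- no curve of degree at most `B` contains the set -/
def NoCurve {L : Type*} [Field L] (B : ℕ) (S : Set (Fin 2 → L)) : Prop :=
  ∀ φ : MvPolynomial (Fin 2) L, φ ≠ 0 → φ.totalDegree ≤ B → ∃ z ∈ S, MvPolynomial.eval z φ ≠ 0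

/-- **points in given sets** -/
theorem exists_in {L : Type*} [Field L] {n B : ℕ} {S : Fin n → Set (Fin 2 → L)}
    (hS : ∀ i, NoCurve B (S i)) {F : MvPolynomial (Fin n × Fin 2) ℤ}
    (hB : ∀ (Q : Fin n → Fin 2 → L) (i₀ : Fin n), (sb Q i₀ F).totalDegree ≤ B)
    {P : Fin n → Fin 2 → L} (hP : ev P F ≠ 0) :
    ∃ Y : Fin n → Fin 2 → L, (∀ i, Y i ∈ S i) ∧ ev Y F ≠ 0 := by
  classical
  have key : ∀ T : Finset (Fin n), ∃ Y : Fin n → Fin 2 → L, (∀ i ∈ T, Y i ∈ S i) ∧ ev Y F ≠ 0 := by
    intro T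
    induction T using Finset.induction_on with
    | empty => exact ⟨P, fun i hi => absurd hi (Finset.notMem_empty i), hP⟩
    | insert a T ha ih =>
      obtain ⟨Y, hY, hY'⟩ := ih
      have h1 : sb Y a F ≠ 0 := by
        intro h0
        have h2 := eval_sb Y a (Y a) F
        rw [h0, map_zero, Function.update_eq_self] at h2
        exact hY' h2.symm
      obtain ⟨z, hz, hz'⟩ := hS a _ h1 (hB Y a)
      rw [eval_sb] at hz'
      refine ⟨Function.update Y a z, fun i hi => ?_, hz'⟩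
      by_cases hia : i = a
      · subst hia
        rw [Function.update_self]
        exact hz
      · rw [Function.update_of_ne hia]
        exact hY i (Finset.mem_of_mem_insert_of_ne hi hia)
  obtain ⟨Y, hY, hY'⟩ := key Finset.univ
  exact ⟨Y, fun i => hY i (Finset.mem_univ i), hY'⟩

/-- an irreducible curve of large degree -/
theorem noCurve_of_irreducible {L : Type*} [Field L] [IsAlgClosed L] {B : ℕ}
    {P : MvPolynomial (Fin 2) L} (hP : Irreducible P) (hB : B < P.totalDegree) :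
    NoCurve B {z | MvPolynomial.eval z P = 0} := by
  intro φ hφ hdeg
  by_contra hcon
  push Not at hcon
  have hprime : (Ideal.span {P} : Ideal (MvPolynomial (Fin 2) L)).IsPrime := by
    rw [Ideal.span_singleton_prime hP.ne_zero]
    exact UniqueFactorizationMonoid.irreducible_iff_prime.1 hP
  have h1 : φ ∈ MvPolynomial.vanishingIdeal L (MvPolynomial.zeroLocus L (Ideal.span {P})) := by
    rw [MvPolynomial.mem_vanishingIdeal_iff]
    intro z hz
    have h2 := hz P (Ideal.mem_span_singleton_self P)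
    exact hcon z h2
  rw [MvPolynomial.IsPrime.vanishingIdeal_zeroLocus, Ideal.mem_span_singleton] at h1
  obtain ⟨Q, hQ⟩ := h1
  have hQ0 : Q ≠ 0 := by
    rintro rfl
    rw [mul_zero] at hQ
    exact hφ hQ
  rw [hQ, MvPolynomial.totalDegree_mul_of_isDomain hP.ne_zero hQ0] at hdeg
  omega

end Pool.Agent.L7h88.VG
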