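import Mathlib

set_option autoImplicit false

/-! Automorphisms of the field of complex numbers mapping one algebraically independent family to
another. -/

namespace Pool.Agent.L7h88.VG

open Cardinal MvPolynomial

theorem exists_ringEquiv {ι κ : Type} {v : ι → ℂ} {w : κ → ℂ} (e : ι ≃ κ)
    (hv : IsTranscendenceBasis ℚ v) (hw : IsTranscendenceBasis ℚ w) :
    ∃ σ : ℂ ≃+* ℂ, ∀ i, σ (v i) = w (e i) := by
  let _ := IsAlgClosed.isAlgClosure_of_transcendence_basis v hv
  let _ := IsAlgClosed.isAlgClosure_of_transcendence_basis w hw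
  obtain ⟨ρ, hρ⟩ : ∃ ρ : Algebra.adjoin ℚ (Set.range v) ≃ₐ[ℚ] Algebra.adjoin ℚ (Set.range w),
      ρ = (hv.1.aevalEquiv.symm.trans (renameEquiv ℚ e)).trans hw.1.aevalEquiv := ⟨_, rfl⟩
  refine ⟨IsAlgClosure.equivOfEquiv ℂ ℂ ρ.toRingEquiv, fun i => ?_⟩
  have h1 : v i = algebraMap (Algebra.adjoin ℚ (Set.range v)) ℂ (hv.1.aevalEquiv (X i)) := by
    rw [AlgebraicIndependent.algebraMap_aevalEquiv, aeval_X]
  rw [h1, IsAlgClosure.equivOfEquiv_algebraMap]
  have h2 : ρ.toRingEquiv (hv.1.aevalEquiv (X i)) = hw.1.aevalEquiv (X (e i)) := by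
    show ρ (hv.1.aevalEquiv (X i)) = _
    rw [hρ]
    simp
  rw [h2, AlgebraicIndependent.algebraMap_aevalEquiv, aeval_X]

theorem card_basis {R : Type} [CommRing R] [Nontrivial R] [Algebra R ℂ] (hR : #R ≤ ℵ₀) {ι : Type}
    {v : ι → ℂ} (hv : IsTranscendenceBasis R v) : #ι = #ℂ :=
  (IsAlgClosed.cardinal_eq_cardinal_transcendence_basis_of_aleph0_lt' v hv hR (by
    rw [Cardinal.mk_complex]
    exact Cardinal.aleph0_lt_continuum)).symm

/-- an automorphism mapping one finite algebraically independent family to another -/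
theorem exists_aut {τ : Type} [Finite τ] {x y : τ → ℂ} (hx : AlgebraicIndependent ℚ x)
    (hy : AlgebraicIndependent ℚ y) : ∃ σ : ℂ ≃+* ℂ, ∀ i, σ (x i) = y i := by
  classical
  obtain ⟨S, hxS, hS⟩ := exists_isTranscendenceBasis_superset (R := ℚ) (A := ℂ)
    (s := Set.range x) hx.to_subtype_range
  obtain ⟨T, hyT, hT⟩ := exists_isTranscendenceBasis_superset (R := ℚ) (A := ℂ)
    (s := Set.range y) hy.to_subtype_range
  have hS1 : #S = #ℂ := card_basis (by simp) hS
  have hT1 : #T = #ℂ := card_basis (by simp) hT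
  have hxi : Function.Injective x := hx.injective
  have hyi : Function.Injective y := hy.injective
  obtain ⟨s0, hs0⟩ : ∃ s0 : Set S, s0 = {a | a.1 ∈ Set.range x} := ⟨_, rfl⟩
  have hmem : ∀ a : s0, ∃ i, x i = a.1.1 := by
    rintro ⟨a, ha⟩
    rw [hs0] at ha
    exact ha
  choose idx hidx using hmem
  obtain ⟨f, hf⟩ : ∃ f : s0 ↪ T, ∀ a, (f a).1 = y (idx a) :=
    ⟨⟨fun a => ⟨y (idx a), hyT ⟨_, rfl⟩⟩, fun a b hab => by
      have h1 : y (idx a) = y (idx b) := congrArg Subtype.val hab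
      have h2 := hyi h1
      apply Subtype.ext
      apply Subtype.ext
      rw [← hidx a, ← hidx b, h2]⟩, fun a => rfl⟩
  have hfin : Finite s0 := by
    have h1 : Function.Injective idx := by
      intro a b hab
      apply Subtype.ext
      apply Subtype.ext
      rw [← hidx a, ← hidx b, hab]
    exact Finite.of_injective idx h1
  have hlt : #s0 < #S := by
    rw [hS1]
    refine (Cardinal.mk_lt_aleph0).trans ?_
    rw [Cardinal.mk_complex]
    exact Cardinal.aleph0_lt_continuum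
  obtain ⟨g, hg⟩ := Cardinal.extend_function_of_lt f hlt (Cardinal.eq.1 (hS1.trans hT1.symm))
  obtain ⟨σ, hσ⟩ := exists_ringEquiv g hS hT
  refine ⟨σ, fun i => ?_⟩
  have h1 : (⟨x i, hxS ⟨i, rfl⟩⟩ : S) ∈ s0 := by
    rw [hs0]
    exact ⟨i, rfl⟩
  have h2 := hσ ⟨x i, hxS ⟨i, rfl⟩⟩
  rw [h2, hg ⟨_, h1⟩, hf]
  congr 1
  exact hxi (hidx _)

/-- an algebraically independent point at which a polynomial does not vanish -/
theorem exists_indep {τ : Type} [Finite τ] {g : MvPolynomial τ ℂ} (hg : g ≠ 0) :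
    ∃ y : τ → ℂ, AlgebraicIndependent ℚ y ∧ eval y g ≠ 0 := by
  classical
  obtain ⟨A, hA⟩ : ∃ A : Subalgebra ℚ ℂ, A = Algebra.adjoin ℚ (g.coeffs : Set ℂ) := ⟨_, rfl⟩
  have hAc : #A ≤ ℵ₀ := by
    rw [hA]
    refine (Algebra.cardinalMk_adjoin_le ℚ _).trans ?_
    simp
  obtain ⟨s, hs⟩ := exists_isTranscendenceBasis A ℂ
  have hs1 : #s = #ℂ := card_basis hAc hs
  have hinf : Infinite s := by
    rw [Cardinal.infinite_iff, hs1, Cardinal.mk_complex]
    exact Cardinal.aleph0_le_continuum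
  obtain ⟨emb⟩ : Nonempty (τ ↪ s) := by
    obtain ⟨n, ⟨e⟩⟩ := Finite.exists_equiv_fin τ
    exact ⟨e.toEmbedding.trans ((Fin.valEmbedding).trans (Infinite.natEmbedding s))⟩
  have h1 : AlgebraicIndependent A (fun t : τ => ((emb t : s) : ℂ)) := hs.1.comp emb emb.injective
  refine ⟨fun t => ((emb t : s) : ℂ), h1.restrictScalars (algebraMap ℚ A).injective, ?_⟩
  have h2 : g ∈ Set.range (MvPolynomial.map (algebraMap A ℂ) : MvPolynomial τ A → MvPolynomial τ ℂ) := by
    rw [mem_range_map_iff_coeffs_subset]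
    intro c hc
    exact ⟨⟨c, by rw [hA]; exact Algebra.subset_adjoin hc⟩, rfl⟩
  obtain ⟨g0, hg0⟩ := h2
  have hg1 : g0 ≠ 0 := by
    rintro rfl
    rw [map_zero] at hg0
    exact hg hg0.symm
  rw [← hg0, eval_map]
  intro h0
  exact hg1 (h1.eq_zero_of_aeval_eq_zero _ h0)

end Pool.Agent.L7h88.VG
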