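import Mathlib
import Pool.Agent.L7h88.VG.Aut
import Pool.Agent.TH387.EX.Core

set_option autoImplicit false

/-! Points with algebraically independent coordinates: no exceptional form, for all multiplicities. -/

namespace Pool.Agent.L7h88.VG

open MvPolynomial Pool.Agent.TH387.EX

/-- a class is bad for `Y` if and only if it is bad for the conjugate points -/
theorem bad_aut {n : ℕ} (σ : ℂ ≃+* ℂ) {Y : Fin n → Fin 2 → ℂ} {d m e : ℕ} {c : Fin n → ℕ}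
    (h : Bad Y d m e c) : Bad (fun i j => σ (Y i j)) d m e c := by
  obtain ⟨F, h1, h2, h3, ⟨Q, hQ, hQ0⟩, h5⟩ := h
  have hinj : Function.Injective (σ : ℂ →+* ℂ) := σ.injective
  have hmi : Function.Injective (MvPolynomial.map (σ : ℂ →+* ℂ) :
      MvPolynomial (Fin 3) ℂ → MvPolynomial (Fin 3) ℂ) := MvPolynomial.map_injective _ hinj
  refine ⟨MvPolynomial.map (σ : ℂ →+* ℂ) F, ?_, V_map (σ : ℂ →+* ℂ) h2, fun i hi => h3 i ?_,
    ⟨MvPolynomial.map (σ : ℂ →+* ℂ) Q, V_map (σ : ℂ →+* ℂ) hQ, fun h => hQ0 (hmi (by rw [h, map_zero]))⟩,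
    fun Q' hQ' => ?_⟩
  · have h6 := (MulEquiv.irreducible_iff (MvPolynomial.mapEquiv (Fin 3) σ).toMulEquiv (x := F)).2 h1
    exact h6
  · exact (mem_map_iff (σ : ℂ →+* ℂ) hinj).1 hi
  · obtain ⟨P, hP⟩ : ∃ P, MvPolynomial.map (σ : ℂ →+* ℂ) P = Q' :=
      MvPolynomial.map_surjective (σ : ℂ →+* ℂ) σ.surjective Q'
    rw [← hP] at hQ' ⊢
    have h6 := (V_map_iff (σ : ℂ →+* ℂ) hinj (P := Y)).1 hQ'
    exact map_dvd (MvPolynomial.map (σ : ℂ →+* ℂ)) (h5 P h6)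

theorem not_bad {n : ℕ} (hn : 10 ≤ n) {Y : Fin n → Fin 2 → ℂ}
    (hY : AlgebraicIndependent ℚ (fun ij : Fin n × Fin 2 => Y ij.1 ij.2)) (m d e : ℕ) (c : Fin n → ℕ)
    (h1 : (e : ℤ) ^ 2 - ∑ i, (c i : ℤ) ^ 2 = -1) (h2 : -3 * (e : ℤ) + ∑ i, (c i : ℤ) = -1) :
    ¬ Bad Y d m e c := by
  obtain ⟨g, hg, hg'⟩ := no_exceptional hn m
  obtain ⟨y, hy, hy'⟩ := exists_indep hg
  obtain ⟨σ, hσ⟩ := exists_aut hY hy
  intro hB
  refine hg' (fun i j => y (i, j)) hy' d e c h1 h2 ?_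
  have h3 := bad_aut σ hB
  have h4 : (fun i j => σ (Y i j)) = fun i j => y (i, j) := by
    funext i j
    exact hσ (i, j)
  rwa [h4] at h3

/-- the equivalence at points with algebraically independent coordinates -/
theorem core' {n : ℕ} (hn : 10 ≤ n) {Y : Fin n → Fin 2 → ℂ}
    (hY : AlgebraicIndependent ℚ (fun ij : Fin n × Fin 2 => Y ij.1 ij.2)) (m : ℕ) :
    (∀ d, Pool.Agent.H932R3.ExpDim ℂ (fun _ => m) Y d → IsAH Y m d) ∧
    (∀ d, Equivalence Y m d ↔ IsAH Y m d) ∧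
    ∀ d, part (fat Y m) d ≠ ⊥ → ∀ F, IsExceptional Y F → ∃ G ∈ part (fat Y m) d, ¬ F ∣ G := by
  have hno : ∀ d, part (fat Y m) d ≠ ⊥ → ∀ F, IsExceptional Y F →
      ∃ G ∈ part (fat Y m) d, ¬ F ∣ G := by
    intro d hd F hF
    by_contra hcon
    push Not at hcon
    obtain ⟨hirr, e, c, hFe, hFc, h1, h2⟩ := hF
    obtain ⟨Q, hQ, hQ0⟩ := Submodule.exists_mem_ne_zero_of_ne_bot hd
    exact not_bad hn hY m d e c h1 h2 ⟨F, hirr, mem_V.2 ⟨hFe, fun i => (hFc i).1⟩,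
      fun i => (hFc i).2, ⟨Q, hQ, hQ0⟩, hcon⟩
  have hright : ∀ d, part (fat Y m) d ≠ ⊥ → ¬ ∃ F, IsExceptional Y F ∧ ∃ s : ℕ, 2 ≤ s ∧
      ∀ G ∈ part (fat Y m) d, F ^ s ∣ G := by
    rintro d hd ⟨F, hF, s, hs, hdiv⟩
    obtain ⟨G, hG, hG'⟩ := hno d hd F hF
    exact hG' ((dvd_pow_self F (by omega)).trans (hdiv G hG))
  have hbot : ∀ d, part (fat Y m) d = ⊥ → IsAH Y m d := by
    intro d hd
    have h4 : (d + 2).choose 2 ≤ n * (m + 1).choose 2 := by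
      by_contra hcon
      obtain ⟨f, hf, hf0⟩ := exists_mem_V Y (d := d) (w := fun _ => m) (by
        rw [Finset.sum_const, Finset.card_univ, Fintype.card_fin, smul_eq_mul]
        omega)
      rw [← part_eq, hd, Submodule.mem_bot] at hf
      exact hf0 hf
    unfold IsAH hilb
    rw [hd, finrank_bot, TH603.Sur.finrank_forms]
    omega
  refine ⟨fun d h2 => ?_, fun d => ⟨fun h => ?_, fun h hne => ?_⟩, hno⟩
  · unfold Pool.Agent.H932R3.ExpDim at h2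
    rw [Finset.sum_const, Finset.card_univ, Fintype.card_fin, smul_eq_mul] at h2
    have h3 : Module.finrank ℂ ↥(part (fat Y m) d) =
      (d + 2).choose 2 - n * (m + 1).choose 2 := h2
    unfold IsAH hilb
    rw [h3, TH603.Sur.finrank_forms]
    omega
  · by_cases hd : part (fat Y m) d = ⊥
    · exact hbot d hd
    · by_contra hcon
      exact hright d hd ((h hd).1 hcon)
  · exact ⟨fun h5 => absurd h h5, fun h5 => absurd h5 (hright d hne)⟩

end Pool.Agent.L7h88.VG
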