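import Mathlib
import Pool.Agent.L7h88.VG.Exc
import Pool.Agent.L7h88.CG.Exf
import Pool.Agent.TH760.EN.Asm
import Pool.Agent.TH864.SX.Final13
import Pool.Agent.TH469.SX.TwentyOne
import Pool.Agent.H932R3.NearFinal
import Pool.Agent.TH641.NW.End2
import Pool.Agent.N388.EFW.Final
import Pool.Agent.N388.EF.TEST2

set_option autoImplicit false

/-! Points with algebraically independent coordinates: the dimensions, and explicit points. -/

namespace Pool.Agent.L7h88.VG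

open MvPolynomial Pool.Agent.TH387.EX Pool.Agent.H932R3

/-- the degrees which may be left open -/
def WinP (r m d : ℕ) : Prop :=
  ¬ (37 ≤ r ∨ r = 13 ∨ r = 21 ∨ IsSquare r) ∧ (r : ℝ) - 6 * √(r : ℝ) + 11 < m ∧
  √(r : ℝ) * (2 * m + 1) - min (√(r : ℝ) - 3) (2 / 3 + 9 / (4 * √(r : ℝ))) ≤ 2 * (d : ℝ) + 3 ∧
  2 * (d : ℝ) + 3 ≤ √(r : ℝ) * (2 * m + 1) + min (√(r : ℝ) - 3) (2 / 3 + 1 / (4 * √(r : ℝ))) ∧
  (r = 11 ∨ r = 15 → 3 ∣ d ∧ 3 * (√(r : ℝ) - 3) / (√(r : ℝ) + 3) ≤ (d : ℝ) - √(r : ℝ) * m ∧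
    2 * (d : ℝ) + 3 < √(r : ℝ) * (2 * m + 1))

theorem winP_unique {r m d d' : ℕ} (h : WinP r m d) (h' : WinP r m d') : d = d' := by
  obtain ⟨a0, -, a1, a2, -⟩ := h
  obtain ⟨-, -, b1, b2, -⟩ := h'
  have key : min (√(r : ℝ) - 3) (2 / 3 + 9 / (4 * √(r : ℝ))) +
      min (√(r : ℝ) - 3) (2 / 3 + 1 / (4 * √(r : ℝ))) < 2 := by
    rcases le_or_gt r 15 with hr' | hr'
    · have h1 : √(r : ℝ) < 4 := by
        rw [Real.sqrt_lt' (by norm_num)]
        have : (r : ℝ) ≤ 15 := by exact_mod_cast hr'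
        linarith
      have h2 := min_le_left (√(r : ℝ) - 3) (2 / 3 + 9 / (4 * √(r : ℝ)))
      have h3 := min_le_left (√(r : ℝ) - 3) (2 / 3 + 1 / (4 * √(r : ℝ)))
      linarith
    · have h1 : 4 ≤ √(r : ℝ) := by
        apply Real.le_sqrt_of_sq_le
        have : (16 : ℝ) ≤ r := by exact_mod_cast hr'
        linarith
      have h2 := min_le_right (√(r : ℝ) - 3) (2 / 3 + 9 / (4 * √(r : ℝ)))
      have h3 := min_le_right (√(r : ℝ) - 3) (2 / 3 + 1 / (4 * √(r : ℝ)))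
      have h4 : 9 / (4 * √(r : ℝ)) ≤ 9 / 16 := by
        apply div_le_div_of_nonneg_left (by norm_num) (by norm_num); linarith
      have h5 : 1 / (4 * √(r : ℝ)) ≤ 1 / 16 := by
        apply div_le_div_of_nonneg_left (by norm_num) (by norm_num); linarith
      linarith
  have h1 : ∀ x y : ℕ, 2 * (y : ℝ) + 3 < 2 * (x : ℝ) + 3 + 2 → y ≤ x := by
    intro x y hxy
    have : (y : ℝ) < ((x + 1 : ℕ) : ℝ) := by push_cast; linarith
    have h2 : y < x + 1 := by exact_mod_cast this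
    omega
  exact le_antisymm (h1 _ _ (by linarith)) (h1 _ _ (by linarith))

/-- small multiplicities and the complete cases -/
theorem dim_full {r m : ℕ} (hr : 10 ≤ r) (hm : 1 ≤ m)
    (h : 37 ≤ r ∨ r = 13 ∨ r = 21 ∨ IsSquare r ∨ (m : ℝ) ≤ (r : ℝ) - 6 * √(r : ℝ) + 11) :
    ∃ F : MvPolynomial (Fin r × Fin 2) ℚ, F ≠ 0 ∧ ∀ P : Fin r → Fin 2 → ℂ,
      MvPolynomial.aeval (fun ij : Fin r × Fin 2 => P ij.1 ij.2) F ≠ 0 →
      ∀ d : ℕ, ExpDim ℂ (fun _ => m) P d := by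
  rcases h with h | rfl | rfl | ⟨s, rfl⟩ | h
  · exact TH760.EN.expDim37 (L := ℂ) h hm
  · obtain ⟨F, hF, hF'⟩ := TH864.SX.uniform13 m
    exact ⟨F, hF, fun P hP d => hF' P hP d⟩
  · obtain ⟨F, hF, hF'⟩ := TH469.SX.twentyone m
    exact ⟨F, hF, fun P hP d => hF' P hP d⟩
  · have hs2 : 2 ≤ s := by
      by_contra hcon
      have : s ≤ 1 := by omega
      have := Nat.mul_le_mul this this
      omega
    exact H932R3.near_points (L := ℂ) (w := fun _ => m) hr hm (fun _ => Or.inl rfl)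
      (H932R3.near_cond (by omega) (fun _ => Or.inl rfl)
        (Or.inr ⟨s, 0, hs2, by ring, Or.inl rfl⟩))
  · have hrR : (10 : ℝ) ≤ r := by exact_mod_cast hr
    have hss : √(r : ℝ) * √(r : ℝ) = r := Real.mul_self_sqrt (by linarith)
    rcases Nat.lt_or_ge m 2 with h2 | h2
    · have hm1 : m = 1 := by omega
      subst hm1
      refine H932R3.near_points (L := ℂ) (w := fun _ => 1) hr le_rfl (fun _ => Or.inl rfl)
        (H932R3.near_cond (by omega) (fun _ => Or.inl rfl) (Or.inl ?_))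
      push_cast
      nlinarith [sq_nonneg (√(r : ℝ) - 3)]
    · obtain ⟨k, rfl⟩ : ∃ k, m = k + 1 := ⟨m - 1, by omega⟩
      exact H932R3.near_points (L := ℂ) (w := fun _ => k + 1) (m := k) hr (by omega)
        (fun _ => Or.inr rfl)
        (H932R3.near_cond (by omega) (fun _ => Or.inr rfl) (Or.inl h))

theorem ne_of_indep {r : ℕ} {Y : Fin r → Fin 2 → ℂ}
    (hY : AlgebraicIndependent ℚ (fun ij : Fin r × Fin 2 => Y ij.1 ij.2))
    {F : MvPolynomial (Fin r × Fin 2) ℚ} (hF : F ≠ 0) :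
    MvPolynomial.aeval (fun ij : Fin r × Fin 2 => Y ij.1 ij.2) F ≠ 0 := fun h =>
  hF (hY.eq_zero_of_aeval_eq_zero _ h)

/-- **the dimensions** -/
theorem dims {r m d : ℕ} (hr : 10 ≤ r) (hm : 1 ≤ m) {Y : Fin r → Fin 2 → ℂ}
    (hY : AlgebraicIndependent ℚ (fun ij : Fin r × Fin 2 => Y ij.1 ij.2)) (hd : ¬ WinP r m d) :
    ExpDim ℂ (fun _ => m) Y d := by
  by_contra hE
  apply hd
  have h1 : ¬ (37 ≤ r ∨ r = 13 ∨ r = 21 ∨ IsSquare r ∨ (m : ℝ) ≤ (r : ℝ) - 6 * √(r : ℝ) + 11) := by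
    intro h
    obtain ⟨F, hF, hF'⟩ := dim_full hr hm h
    exact hE (hF' Y (ne_of_indep hY hF) d)
  have h2 : ¬ (min (√(r : ℝ) - 3) (2 / 3 + 9 / (4 * √(r : ℝ))) <
            √(r : ℝ) * (2 * m + 1) - (2 * d + 3) ∨
          min (√(r : ℝ) - 3) (2 / 3 + 1 / (4 * √(r : ℝ))) < (2 * d + 3) - √(r : ℝ) * (2 * m + 1)) := by
    intro h
    obtain ⟨F, hF, hF'⟩ := TH641.NW.expDim_uni_win2 (L := ℂ) hr hm
    exact hE (hF' Y (ne_of_indep hY hF) d h)
  push Not at h1 h2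
  obtain ⟨c1, c2, c3, c4, c5⟩ := h1
  refine ⟨?_, c5, by linarith [h2.1], by linarith [h2.2], fun h11 => ?_⟩
  · rintro (h | h | h | h)
    · omega
    · exact c2 h
    · exact c3 h
    · exact c4 h
  · by_contra hcon
    obtain ⟨F, hF, hF'⟩ := N388.EFW.uniform N388.EF.t_TEST2 r h11 m
    refine hE (hF' Y (ne_of_indep hY hF) d fun h => hcon ⟨h.1, h.2.1, ?_⟩)
    have := h.2.2
    linarith

/-- explicit points: `exp (2 ^ (k / (2 r)))`, `k = 0, …, 2 r - 1` -/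
theorem indep_exp {r : ℕ} (hr : 1 ≤ r) : AlgebraicIndependent ℚ (fun ij : Fin r × Fin 2 =>
    Complex.exp (((2 : ℝ) ^ (((2 * (ij.1 : ℕ) + (ij.2 : ℕ) : ℕ) : ℝ) / (2 * r)) : ℝ) : ℂ)) := by
  obtain ⟨y, hy⟩ : ∃ y : ℝ, y = (2 : ℝ) ^ ((1 : ℝ) / (2 * r)) := ⟨_, rfl⟩
  have hnR : (0 : ℝ) < 2 * r := by
    have : (1 : ℝ) ≤ r := by exact_mod_cast hr
    linarith
  have hyk : ∀ k : ℕ, (2 : ℝ) ^ ((k : ℝ) / (2 * r)) = y ^ k := by
    intro k
    rw [hy, ← Real.rpow_natCast, ← Real.rpow_mul (by norm_num)]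
    congr 1
    field_simp
  have hx2 : (y : ℂ) ^ (r * 2) = 2 := by
    have h1 : y ^ (2 * r) = 2 := by
      rw [← hyk]
      push_cast
      rw [div_self hnR.ne', Real.rpow_one]
    rw [mul_comm]
    exact_mod_cast h1
  have h3 : AlgebraicIndependent ℚ (fun l : Fin (r * 2) => Complex.exp ((y : ℂ) ^ (l : ℕ))) := by
    rw [algebraicIndependent_iff]
    intro p hp
    by_contra hp0
    exact Pool.Agent.L7h88.CG.exp_gen (e := fun l : Fin (r * 2) => (l : ℕ)) Fin.val_injective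
      (fun l => l.2) hx2 (by omega) hp0 hp
  have h4 := h3.comp (finProdFinEquiv (m := r) (n := 2)) (finProdFinEquiv (m := r) (n := 2)).injective
  have h5 : (fun l : Fin (r * 2) => Complex.exp ((y : ℂ) ^ (l : ℕ))) ∘
      (finProdFinEquiv (m := r) (n := 2)) = fun ij : Fin r × Fin 2 =>
    Complex.exp (((2 : ℝ) ^ (((2 * (ij.1 : ℕ) + (ij.2 : ℕ) : ℕ) : ℝ) / (2 * r)) : ℝ) : ℂ) := by
    funext ij
    simp only [Function.comp_apply, finProdFinEquiv_apply_val]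
    rw [hyk, add_comm (2 * (ij.1 : ℕ))]
    push_cast
    rfl
  rw [← h5]
  exact h4

end Pool.Agent.L7h88.VG
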