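import Mathlib
import Pool.Agent.L7h88.VG.Crv
import Pool.Agent.L7h88.VG.Dim

set_option autoImplicit false

/-! Points in given sets: the equivalence. -/

namespace Pool.Agent.L7h88.VG

open MvPolynomial Pool.Agent.TH387.EX Pool.Agent.H932R3

/-- the point with the number `i₀` is replaced by a variable point -/
noncomputable def sc {L : Type*} [Field L] {n : ℕ} (Y : Fin n → Fin 2 → L) (i₀ : Fin n) :
    MvPolynomial (Fin n × Fin 2) L →+* MvPolynomial (Fin 2) L :=
  MvPolynomial.eval₂Hom MvPolynomial.C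
    (fun ij => if ij.1 = i₀ then MvPolynomial.X ij.2 else MvPolynomial.C (Y ij.1 ij.2))

theorem eval_sc {L : Type*} [Field L] {n : ℕ} (Y : Fin n → Fin 2 → L) (i₀ : Fin n) (z : Fin 2 → L)
    (F : MvPolynomial (Fin n × Fin 2) L) :
    MvPolynomial.eval z (sc Y i₀ F) =
      MvPolynomial.eval (fun ij : Fin n × Fin 2 => Function.update Y i₀ z ij.1 ij.2) F := by
  have h : (MvPolynomial.eval z).comp (sc Y i₀) =
      MvPolynomial.eval (fun ij : Fin n × Fin 2 => Function.update Y i₀ z ij.1 ij.2) := by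
    refine MvPolynomial.ringHom_ext (fun a => by simp [sc]) (fun ij => ?_)
    by_cases hij : ij.1 = i₀
    · simp [sc, hij]
    · simp [sc, hij]
  exact congrArg (fun φ : MvPolynomial (Fin n × Fin 2) L →+* L => φ F) h

theorem deg_sc {L : Type*} [Field L] {n : ℕ} (Y : Fin n → Fin 2 → L) (i₀ : Fin n)
    (F : MvPolynomial (Fin n × Fin 2) L) : (sc Y i₀ F).totalDegree ≤ F.totalDegree := by
  classical
  conv_lhs => rw [F.as_sum, map_sum]
  refine MvPolynomial.totalDegree_finsetSum_le fun s hs => ?_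
  have h1 : (s.sum fun _ e => e) ≤ F.totalDegree := le_totalDegree hs
  refine le_trans ?_ h1
  rw [MvPolynomial.monomial_eq, map_mul]
  refine (totalDegree_mul _ _).trans ?_
  have h2 : (sc Y i₀ (C (coeff s F))).totalDegree = 0 := by
    rw [sc, coe_eval₂Hom, eval₂_C, totalDegree_C]
  rw [h2, zero_add, Finsupp.prod, map_prod]
  refine (totalDegree_finsetProd _ _).trans ?_
  rw [Finsupp.sum]
  refine Finset.sum_le_sum fun ij _ => ?_
  rw [map_pow]
  refine (totalDegree_pow _ _).trans ?_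
  have h3 : (sc Y i₀ (X ij)).totalDegree ≤ 1 := by
    rw [sc, coe_eval₂Hom, eval₂_X]
    split_ifs
    · rw [totalDegree_X]
    · rw [totalDegree_C]; exact Nat.zero_le _
  calc s ij * (sc Y i₀ (X ij)).totalDegree ≤ s ij * 1 := Nat.mul_le_mul_left _ h3
    _ = s ij := mul_one _

/-- **points in given sets** -/
theorem exists_in' {L : Type*} [Field L] [Infinite L] {n B : ℕ} {S : Fin n → Set (Fin 2 → L)}
    (hS : ∀ i, NoCurve B (S i)) {F : MvPolynomial (Fin n × Fin 2) L} (hF : F ≠ 0)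
    (hB : F.totalDegree ≤ B) :
    ∃ Y : Fin n → Fin 2 → L, (∀ i, Y i ∈ S i) ∧
      MvPolynomial.eval (fun ij : Fin n × Fin 2 => Y ij.1 ij.2) F ≠ 0 := by
  classical
  obtain ⟨P, hP⟩ : ∃ P : Fin n → Fin 2 → L,
      MvPolynomial.eval (fun ij : Fin n × Fin 2 => P ij.1 ij.2) F ≠ 0 := by
    by_contra hcon
    push Not at hcon
    apply hF
    apply MvPolynomial.funext
    intro x
    rw [map_zero]
    exact hcon fun i j => x (i, j)
  have key : ∀ T : Finset (Fin n), ∃ Y : Fin n → Fin 2 → L, (∀ i ∈ T, Y i ∈ S i) ∧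
      MvPolynomial.eval (fun ij : Fin n × Fin 2 => Y ij.1 ij.2) F ≠ 0 := by
    intro T
    induction T using Finset.induction_on with
    | empty => exact ⟨P, fun i hi => absurd hi (Finset.notMem_empty i), hP⟩
    | insert a T ha ih =>
      obtain ⟨Y, hY, hY'⟩ := ih
      have h1 : sc Y a F ≠ 0 := by
        intro h0
        have h2 := eval_sc Y a (Y a) F
        rw [h0, map_zero, Function.update_eq_self] at h2
        exact hY' h2.symm
      obtain ⟨z, hz, hz'⟩ := hS a _ h1 ((deg_sc Y a F).trans hB)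
      rw [eval_sc] at hz'
      refine ⟨Function.update Y a z, fun i hi => ?_, hz'⟩
      by_cases hia : i = a
      · subst hia
        rw [Function.update_self]
        exact hz
      · rw [Function.update_of_ne hia]
        exact hY i (Finset.mem_of_mem_insert_of_ne hi hia)
  obtain ⟨Y, hY, hY'⟩ := key Finset.univ
  exact ⟨Y, fun i => hY i (Finset.mem_univ i), hY'⟩

/-- the dimensions, in terms of one polynomial with rational coefficients -/
theorem dims_gen {r m d : ℕ} (hr : 10 ≤ r) (hm : 1 ≤ m) (hd : ¬ WinP r m d) :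
    ∃ P : Fin r → Fin 2 → ℂ, Pool.Agent.Y210.EF.ED ℂ (fun _ => m) P d := by
  obtain ⟨y, hy, -⟩ := exists_indep (τ := Fin r × Fin 2) (g := 1) one_ne_zero
  exact ⟨fun i j => y (i, j), dims hr hm (Y := fun i j => y (i, j)) hy hd⟩

/-- the polynomial for the dimensions -/
theorem dim_poly {r m : ℕ} (hr : 10 ≤ r) (hm : 1 ≤ m) :
    ∃ Φ : MvPolynomial (Fin r × Fin 2) ℤ, Φ ≠ 0 ∧
      (∀ Y : Fin r → Fin 2 → ℂ, Pool.Agent.Y210.EF.ev Y Φ ≠ 0 → ∀ d, ¬ WinP r m d → IsAH Y m d) ∧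
      ∀ (L : Type) [Field L] (Q : Fin r → Fin 2 → L) (i₀ : Fin r),
        (sb Q i₀ Φ).totalDegree ≤ m * (m + 1) * Nat.sqrt (r * m * (m + 1)) := by
  have h0 : (m + 1).choose 2 * 2 = (m + 1) * m := by
    rw [Nat.choose_two_right, Nat.div_mul_cancel (Nat.even_mul_pred_self _).two_dvd]
    rfl
  have hcnd : Pool.Agent.Y210.EF.cnd (fun _ : Fin r => m) = r * (m + 1).choose 2 := by
    unfold Pool.Agent.Y210.EF.cnd
    rw [Finset.sum_const, Finset.card_univ, Fintype.card_fin, smul_eq_mul]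
  have hc3 : 3 ≤ Pool.Agent.Y210.EF.cnd (fun _ : Fin r => m) := by
    rw [hcnd]
    have h1 : 1 ≤ (m + 1).choose 2 := Nat.choose_pos (by omega)
    calc 3 ≤ 10 * 1 := by norm_num
      _ ≤ r * (m + 1).choose 2 := Nat.mul_le_mul hr h1
  have hsub : {d | WinP r m d}.Subsingleton := fun x hx y hy => winP_unique hx hy
  obtain ⟨Φ, h1, h2, h3⟩ := spread_all' (K := ℂ) hc3 {d | WinP r m d}
    (by
      rcases hsub.eq_empty_or_singleton with h | ⟨x, h⟩
      · exact Or.inl h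
      · exact Or.inr ⟨x, h⟩) (fun d hd => dims_gen hr hm hd)
  refine ⟨Φ, h1, fun Y hY d hd => ?_, fun L _ Q i₀ => (h3 L Q i₀).trans (le_of_eq ?_)⟩
  · have h4 := h2 ℂ Y hY d hd
    unfold Pool.Agent.Y210.EF.ED at h4
    rw [Finset.sum_const, Finset.card_univ, Fintype.card_fin, smul_eq_mul] at h4
    have h5 : Module.finrank ℂ ↥(part (fat Y m) d) =
      (d + 2).choose 2 - r * (m + 1).choose 2 := h4
    unfold IsAH hilb
    rw [h5, TH603.Sur.finrank_forms]
    omega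
  · have h5 : 2 * Pool.Agent.Y210.EF.cnd (fun _ : Fin r => m) = r * m * (m + 1) := by
      rw [hcnd]
      calc 2 * (r * (m + 1).choose 2) = r * ((m + 1).choose 2 * 2) := by ring
        _ = r * m * (m + 1) := by rw [h0]; ring
    rw [h5]
    calc (m + 1).choose 2 * (2 * Nat.sqrt (r * m * (m + 1))) =
        ((m + 1).choose 2 * 2) * Nat.sqrt (r * m * (m + 1)) := by ring
      _ = m * (m + 1) * Nat.sqrt (r * m * (m + 1)) := by rw [h0]; ring

/-- the polynomial for the equivalence -/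
theorem eq_poly {r m : ℕ} (hr : 10 ≤ r) (hm : 1 ≤ m) :
    ∃ Ψ : MvPolynomial (Fin r × Fin 2) ℂ, Ψ ≠ 0 ∧ ∀ Y : Fin r → Fin 2 → ℂ,
      MvPolynomial.eval (fun ij : Fin r × Fin 2 => Y ij.1 ij.2) Ψ ≠ 0 → ∀ d,
        (¬ WinP r m d → IsAH Y m d ∧ Equivalence Y m d) ∧ (Equivalence Y m d ↔ IsAH Y m d) ∧
        (part (fat Y m) d ≠ ⊥ → ∀ F, IsExceptional Y F → ∃ G ∈ part (fat Y m) d, ¬ F ∣ G) := by
  obtain ⟨Φ, h1, h2, -⟩ := dim_poly hr hm
  obtain ⟨Ψ, hΨ, hΨ'⟩ := core hr (m := m) (S := ∅) ⟨1, one_ne_zero, fun _ _ d hd => absurd hd (by simp)⟩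
  have h3 : Φ.map (Int.castRingHom ℂ) ≠ 0 :=
    Pool.Agent.Y210.EF.map_ne_zero_of_lt h1 le_rfl (Or.inl inferInstance)
  refine ⟨Φ.map (Int.castRingHom ℂ) * Ψ, mul_ne_zero h3 hΨ, fun Y hY d => ?_⟩
  rw [map_mul] at hY
  have hY1 := left_ne_zero_of_mul hY
  obtain ⟨-, h5, h6⟩ := hΨ' Y (right_ne_zero_of_mul hY)
  rw [eval_map] at hY1
  refine ⟨fun hd => ?_, h5 d, h6 d⟩
  have h7 := h2 Y hY1 d hd
  exact ⟨h7, (h5 d).2 h7⟩

end Pool.Agent.L7h88.VG
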