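import Mathlib
import Pool.Agent.L7h88.CG.Ana

set_option autoImplicit false

/-! Points of transcendental curves: almost all of them have algebraically independent coordinates. -/

namespace Pool.Agent.L7h88.VG

open MeasureTheory MvPolynomial

/-- the first point is replaced by a given point -/
noncomputable def s0 {r : ℕ} (z : Fin 2 → ℂ) :
    MvPolynomial (Fin (r + 1) × Fin 2) ℂ →+* MvPolynomial (Fin r × Fin 2) ℂ :=
  eval₂Hom C (fun ij => Fin.cases (motive := fun _ => MvPolynomial (Fin r × Fin 2) ℂ) (C (z ij.2))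
    (fun i => X (i, ij.2)) ij.1)

theorem eval_s0 {r : ℕ} (z : Fin 2 → ℂ) (w : Fin r → Fin 2 → ℂ)
    (F : MvPolynomial (Fin (r + 1) × Fin 2) ℂ) :
    eval (fun ij : Fin r × Fin 2 => w ij.1 ij.2) (s0 z F) =
      eval (fun ij : Fin (r + 1) × Fin 2 => (Fin.cons z w : Fin (r + 1) → Fin 2 → ℂ) ij.1 ij.2) F := by
  have h : (eval (fun ij : Fin r × Fin 2 => w ij.1 ij.2)).comp (s0 z) =
      eval (fun ij : Fin (r + 1) × Fin 2 => (Fin.cons z w : Fin (r + 1) → Fin 2 → ℂ) ij.1 ij.2) := by
    refine ringHom_ext (fun a => by simp [s0]) (fun ij => ?_)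
    obtain ⟨i, j⟩ := ij
    refine Fin.cases ?_ (fun i => ?_) i
    · simp [s0]
    · simp [s0]
  exact congrArg (fun φ : MvPolynomial (Fin (r + 1) × Fin 2) ℂ →+* ℂ => φ F) h

/-- the other points are replaced by given points -/
noncomputable def s1 {r : ℕ} (w : Fin r → Fin 2 → ℂ) :
    MvPolynomial (Fin (r + 1) × Fin 2) ℂ →+* MvPolynomial (Fin 2) ℂ :=
  eval₂Hom C (fun ij => Fin.cases (motive := fun _ => MvPolynomial (Fin 2) ℂ) (X ij.2)
    (fun i => C (w i ij.2)) ij.1)

theorem eval_s1 {r : ℕ} (z : Fin 2 → ℂ) (w : Fin r → Fin 2 → ℂ)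
    (F : MvPolynomial (Fin (r + 1) × Fin 2) ℂ) :
    eval z (s1 w F) =
      eval (fun ij : Fin (r + 1) × Fin 2 => (Fin.cons z w : Fin (r + 1) → Fin 2 → ℂ) ij.1 ij.2) F := by
  have h : (eval z).comp (s1 w) =
      eval (fun ij : Fin (r + 1) × Fin 2 => (Fin.cons z w : Fin (r + 1) → Fin 2 → ℂ) ij.1 ij.2) := by
    refine ringHom_ext (fun a => by simp [s1]) (fun ij => ?_)
    obtain ⟨i, j⟩ := ij
    refine Fin.cases ?_ (fun i => ?_) i
    · simp [s1]
    · simp [s1]
  exact congrArg (fun φ : MvPolynomial (Fin (r + 1) × Fin 2) ℂ →+* ℂ => φ F) h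

/-- one curve: countable zero set -/
theorem curve_countable {U : Set ℂ} (hU : IsOpen U) (hU' : IsPreconnected U) {γ : ℂ → Fin 2 → ℂ}
    (hγ : ∀ j, DifferentiableOn ℂ (fun t => γ t j) U)
    (hT : ∀ P : MvPolynomial (Fin 2) ℂ, P ≠ 0 → ∃ t ∈ U, eval (γ t) P ≠ 0)
    {P : MvPolynomial (Fin 2) ℂ} (hP : P ≠ 0) : {t | t ∈ U ∧ eval (γ t) P = 0}.Countable := by
  have h1 : AnalyticOnNhd ℂ (fun t => aeval (γ t) P) U :=
    AnalyticOnNhd.aeval_mvPolynomial (𝕜 := ℂ) (A := ℂ) (B := ℂ) (f := γ) (s := U)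
      (fun j => (hγ j).analyticOnNhd hU) P
  rcases h1.eqOn_zero_or_eventually_ne_zero_of_preconnected hU' with h | h
  · exfalso
    obtain ⟨t, ht, ht'⟩ := hT P hP
    exact ht' (h ht)
  · refine (Pool.Agent.L7h88.CG.countable_of_codisc h).mono ?_
    rintro t ⟨ht, ht'⟩
    exact ⟨ht, fun h2 => h2 ht'⟩

/-- the extension by zero -/
noncomputable def ext0 (U : Set ℂ) (γ : ℂ → Fin 2 → ℂ) : ℂ → Fin 2 → ℂ := by
  classical
  exact fun t => if t ∈ U then γ t else 0

theorem ext0_meas {U : Set ℂ} (hU : IsOpen U) {γ : ℂ → Fin 2 → ℂ}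
    (hγ : ∀ j, DifferentiableOn ℂ (fun t => γ t j) U) : Measurable (ext0 U γ) := by
  classical
  have h1 : ContinuousOn γ U := continuousOn_pi.2 fun j => (hγ j).continuousOn
  have h2 : Measurable (U.piecewise γ (fun _ => (0 : Fin 2 → ℂ))) :=
    h1.measurable_piecewise continuousOn_const hU.measurableSet
  have h3 : ext0 U γ = U.piecewise γ (fun _ => (0 : Fin 2 → ℂ)) := by
    funext t
    unfold ext0 Set.piecewise
    rfl
  rw [h3]
  exact h2

/-- the bad set -/
def badS {r : ℕ} (U : Fin r → Set ℂ) (γ : Fin r → ℂ → Fin 2 → ℂ)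
    (G : MvPolynomial (Fin r × Fin 2) ℂ) : Set (Fin r → ℂ) :=
  {t | (∀ i, t i ∈ U i) ∧ eval (fun ij : Fin r × Fin 2 => γ ij.1 (t ij.1) ij.2) G = 0}

theorem badS_meas {r : ℕ} {U : Fin r → Set ℂ} {γ : Fin r → ℂ → Fin 2 → ℂ} (hU : ∀ i, IsOpen (U i))
    (hγ : ∀ i j, DifferentiableOn ℂ (fun t => γ i t j) (U i))
    (G : MvPolynomial (Fin r × Fin 2) ℂ) : MeasurableSet (badS U γ G) := by
  have h1 : badS U γ G = (⋂ i, (fun t : Fin r → ℂ => t i) ⁻¹' (U i)) ∩
      (fun t : Fin r → ℂ => eval (fun ij : Fin r × Fin 2 => ext0 (U ij.1) (γ ij.1) (t ij.1) ij.2) G) ⁻¹'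
        {0} := by
    ext t
    simp only [badS, Set.mem_ofPred_eq, Set.mem_inter_iff, Set.mem_iInter, Set.mem_preimage,
      Set.mem_singleton_iff]
    refine and_congr_right fun ht => ?_
    have h2 : (fun ij : Fin r × Fin 2 => ext0 (U ij.1) (γ ij.1) (t ij.1) ij.2) =
        fun ij : Fin r × Fin 2 => γ ij.1 (t ij.1) ij.2 := by
      funext ij
      unfold ext0
      rw [if_pos (ht ij.1)]
    rw [h2]
  rw [h1]
  refine (MeasurableSet.iInter fun i => (hU i).measurableSet.preimage (measurable_pi_apply i)).inter ?_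
  refine MeasurableSet.preimage (measurableSet_singleton 0) ?_
  refine (MvPolynomial.continuous_eval G).measurable.comp ?_
  refine measurable_pi_lambda _ fun ij => ?_
  exact (measurable_pi_apply ij.2).comp ((ext0_meas (hU ij.1) (hγ ij.1)).comp
    (measurable_pi_apply ij.1))

theorem badS_null : ∀ {r : ℕ} {U : Fin r → Set ℂ} {γ : Fin r → ℂ → Fin 2 → ℂ}
    (_ : ∀ i, IsOpen (U i)) (_ : ∀ i, IsPreconnected (U i))
    (_ : ∀ i j, DifferentiableOn ℂ (fun t => γ i t j) (U i))
    (_ : ∀ i, ∀ P : MvPolynomial (Fin 2) ℂ, P ≠ 0 → ∃ t ∈ U i, eval (γ i t) P ≠ 0)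
    {G : MvPolynomial (Fin r × Fin 2) ℂ} (_ : G ≠ 0), volume (badS U γ G) = 0
  | 0, U, γ, hU, hU', hγ, hT, G, hG => by
    have h1 : badS U γ G = ∅ := by
      rw [Set.eq_empty_iff_forall_notMem]
      rintro t ⟨-, ht⟩
      apply hG
      apply MvPolynomial.funext
      intro x
      rw [map_zero, ← ht]
      congr 1
      congr 1
      funext ij
      exact Fin.elim0 ij.1
    rw [h1, measure_empty]
  | r + 1, U, γ, hU, hU', hγ, hT, G, hG => by
    obtain ⟨x, hx⟩ : ∃ x : Fin (r + 1) × Fin 2 → ℂ, eval x G ≠ 0 := by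
      by_contra hcon
      push Not at hcon
      apply hG
      apply MvPolynomial.funext
      intro x
      rw [map_zero]
      exact hcon x
    have hx1 : (fun ij : Fin (r + 1) × Fin 2 => (Fin.cons (fun j => x (0, j))
        (fun i j => x (i.succ, j)) : Fin (r + 1) → Fin 2 → ℂ) ij.1 ij.2) = x := by
      funext ij
      obtain ⟨i, j⟩ := ij
      refine Fin.cases ?_ (fun i => ?_) i
      · rfl
      · rfl
    have hG0 : s0 (r := r) (fun j => x (0, j)) G ≠ 0 := by
      intro h0
      have h1 := eval_s0 (fun j => x (0, j)) (fun i j => x (i.succ, j)) G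
      rw [h0, map_zero, hx1] at h1
      exact hx h1.symm
    have ih := badS_null (U := fun i : Fin r => U i.succ) (γ := fun i => γ i.succ)
      (fun i => hU _) (fun i => hU' _) (fun i => hγ _) (fun i => hT _) hG0
    have hmeas := badS_meas hU hγ G
    have hmp := (volume_preserving_piFinSuccAbove (fun _ : Fin (r + 1) => ℂ) 0).symm
    rw [← hmp.measure_preimage hmeas.nullMeasurableSet]
    have hm2 : MeasurableSet ((MeasurableEquiv.piFinSuccAbove (fun _ : Fin (r + 1) => ℂ) 0).symm ⁻¹'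
        (badS U γ G)) := hmp.measurable hmeas
    rw [Measure.volume_eq_prod, Measure.prod_apply_symm hm2, lintegral_eq_zero_iff
      (measurable_measure_prodMk_right hm2)]
    have h2 : ∀ᵐ t' : Fin r → ℂ, t' ∉ badS (fun i : Fin r => U i.succ) (fun i => γ i.succ)
        (s0 (fun j => x (0, j)) G) := by
      rw [ae_iff]
      simpa using ih
    filter_upwards [h2] with t' ht'
    by_cases hin : ∀ i : Fin r, t' i ∈ U i.succ
    · have h3 : s1 (fun i j => γ i.succ (t' i) j) G ≠ 0 := by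
        intro h0
        apply ht'
        refine ⟨hin, ?_⟩
        have h4 := eval_s0 (fun j => x (0, j)) (fun i j => γ i.succ (t' i) j) G
        rw [h4, ← eval_s1, h0, map_zero]
      have h5 := curve_countable (hU 0) (hU' 0) (hγ 0) (hT 0) h3
      refine measure_mono_null ?_ (h5.measure_zero volume)
      rintro t ⟨ht1, ht2⟩
      refine ⟨ht1 0, ?_⟩
      rw [eval_s1, ← ht2]
      congr 1
      congr 1
      funext ij
      obtain ⟨i, j⟩ := ij
      refine Fin.cases ?_ (fun i => ?_) i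
      · rfl
      · rfl
    · have h3 : (fun x : ℂ => (x, t')) ⁻¹' ((MeasurableEquiv.piFinSuccAbove
          (fun _ : Fin (r + 1) => ℂ) 0).symm ⁻¹' (badS U γ G)) = ∅ := by
        rw [Set.eq_empty_iff_forall_notMem]
        rintro t ⟨ht1, -⟩
        apply hin
        intro i
        exact ht1 i.succ
      rw [h3, measure_empty]
      rfl

theorem countable_mv {τ : Type} [Countable τ] : Countable (MvPolynomial τ ℚ) := by
  rw [← Cardinal.mk_le_aleph0_iff]
  refine MvPolynomial.cardinalMk_le_max.trans ?_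
  simp

/-- **almost all points of transcendental curves** -/
theorem ae_indep {r : ℕ} {U : Fin r → Set ℂ} {γ : Fin r → ℂ → Fin 2 → ℂ}
    (hU : ∀ i, IsOpen (U i)) (hU' : ∀ i, IsPreconnected (U i))
    (hγ : ∀ i j, DifferentiableOn ℂ (fun t => γ i t j) (U i))
    (hT : ∀ i, ∀ P : MvPolynomial (Fin 2) ℂ, P ≠ 0 → ∃ t ∈ U i, eval (γ i t) P ≠ 0) :
    ∀ᵐ t : Fin r → ℂ, (∀ i, t i ∈ U i) →
      AlgebraicIndependent ℚ (fun ij : Fin r × Fin 2 => γ ij.1 (t ij.1) ij.2) := by
  have := countable_mv (τ := Fin r × Fin 2)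
  have h1 : ∀ᵐ t : Fin r → ℂ, ∀ P : MvPolynomial (Fin r × Fin 2) ℚ, P ≠ 0 →
      t ∉ badS U γ (P.map (algebraMap ℚ ℂ)) := by
    rw [ae_all_iff]
    intro P
    by_cases hP : P = 0
    · exact Filter.Eventually.of_forall fun t h => absurd hP h
    · have h2 : P.map (algebraMap ℚ ℂ) ≠ 0 := by
        intro h0
        exact hP (MvPolynomial.map_injective (algebraMap ℚ ℂ) (algebraMap ℚ ℂ).injective (by
          rw [h0, map_zero]))
      have h3 := badS_null hU hU' hγ hT h2
      have h4 : ∀ᵐ t : Fin r → ℂ, t ∉ badS U γ (P.map (algebraMap ℚ ℂ)) := by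
        rw [ae_iff]
        simpa using h3
      filter_upwards [h4] with t ht _
      exact ht
  filter_upwards [h1] with t ht hin
  rw [algebraicIndependent_iff]
  intro P hP
  by_contra hP0
  refine ht P hP0 ⟨hin, ?_⟩
  rw [eval_map]
  exact hP

/-- the graph of the exponential function -/
theorem exp_graph (P : MvPolynomial (Fin 2) ℂ) (hP : P ≠ 0) :
    ∃ t : ℂ, eval ![t, Complex.exp t] P ≠ 0 := by
  by_contra hcon
  push Not at hcon
  -- the polynomial vanishes at all points with nonzero second coordinate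
  have h1 : ∀ x y : ℂ, y ≠ 0 → eval ![x, y] P = 0 := by
    intro x y hy
    obtain ⟨p, hp⟩ : ∃ p : Polynomial ℂ, p = eval₂Hom (Polynomial.C : ℂ →+* Polynomial ℂ)
      ![Polynomial.X, Polynomial.C y] P := ⟨_, rfl⟩
    have hev : ∀ z : ℂ, p.eval z = eval ![z, y] P := by
      intro z
      have h : (Polynomial.evalRingHom z).comp (eval₂Hom (Polynomial.C : ℂ →+* Polynomial ℂ)
          ![Polynomial.X, Polynomial.C y]) = eval ![z, y] := by
        refine ringHom_ext (fun a => by simp) (fun i => ?_)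
        fin_cases i <;> simp
      rw [hp]
      exact congrArg (fun φ : MvPolynomial (Fin 2) ℂ →+* ℂ => φ P) h
    have hp0 : p = 0 := by
      by_contra hne
      have hinf : (Set.range fun n : ℤ => Complex.log y + n * (2 * Real.pi * Complex.I)).Infinite := by
        apply Set.infinite_range_of_injective
        intro a b hab
        have h2 : (a : ℂ) * (2 * Real.pi * Complex.I) = b * (2 * Real.pi * Complex.I) :=
          add_left_cancel hab
        have h3 := mul_right_cancel₀ Complex.two_pi_I_ne_zero h2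
        exact_mod_cast h3
      apply hinf
      refine (Polynomial.finite_setOfPred_isRoot hne).subset ?_
      rintro _ ⟨n, rfl⟩
      show p.eval _ = 0
      rw [hev]
      have h4 := hcon (Complex.log y + n * (2 * Real.pi * Complex.I))
      rw [Complex.exp_add, Complex.exp_int_mul_two_pi_mul_I, mul_one, Complex.exp_log hy] at h4
      exact h4
    rw [← hev x, hp0, Polynomial.eval_zero]
  have h2 : P * X 1 = 0 := by
    apply MvPolynomial.funext
    intro x
    rw [map_mul, eval_X, map_zero]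
    by_cases hx : x 1 = 0
    · rw [hx, mul_zero]
    · have h3 := h1 (x 0) (x 1) hx
      have h4 : ![x 0, x 1] = x := by
        funext i
        fin_cases i <;> rfl
      rw [h4] at h3
      rw [h3, zero_mul]
  rcases mul_eq_zero.1 h2 with h3 | h3
  · exact hP h3
  · exact X_ne_zero (1 : Fin 2) h3

end Pool.Agent.L7h88.VG
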